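import Pool.Agent.Helper26K9.XO.Crit
import Pool.Agent.W287.HK.Basic
import Pool.Agent.W571.HK.Cls
import Pool.Agent.W53.HK.Fp
import Pool.Agent.W366.HK.Fpr
import Pool.Agent.W585.HK.LAT
import Pool.Agent.W692.HK.Ker
import Pool.Agent.W584.HK.CNT
import Pool.Agent.W856.HK.Dec
import Pool.Agent.W636.HK.Gauss
import Pool.Agent.W348.HK.Pois

/-!
# Nonvanishing of the `L`-function in the Beilinson–Bloch conjecture, in every degree: odd twists

Let `K = ℚ(i)`, `R = ℤ[i]`.  Every odd squarefree element of `R` is, up to a unit, the product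
`D = ∏ p ∈ S, p` for a unique finite set `S` of primes of `R` congruent to `1` modulo `2 + 2 i`.  Let
`E_S` be the elliptic curve `D y² = x³ - x` over `K`, which has complex multiplication by `R`.
Its Hecke character `ψ_S` is given by `ψ_S((α)) = (α / D) α` for `α ≡ 1 mod 2 + 2 i`, where `(α / D)` is
the product of the quadratic residue symbols `(α / p)`, `p ∈ S` (by the reciprocity law
`(α / D) = (D / α)`); `ψ_S` vanishes at the ideals that are not prime to `1 + i`.

For `X = E_S ^ N` the representation `H^(2k-1)(X)` of `Gal(Kbar / K)` is a direct sum of the characters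
`ψ_S ^ a * conj ψ_S ^ b`, `a + b = 2 k - 1`, and for `X = E_S ^ N × E_S' ^ M` of such characters of
`E_S` and `E_S'`.

We call `S` good if `N(D) ≡ 5 mod 8` and the following matrix over the field with two elements has only
the two vectors `0` and `(1, ..., 1)` in its kernel: the entry at `(p, q)`, `p ≠ q`, is `1` if `p` is not
a square modulo `q` and `0` otherwise, and the entry at `(p, p)` is the sum of the other entries of its
row.  This is the Laplace matrix of the graph on `S` in which two primes are joined if they are not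
squares modulo each other, and the condition means that this graph has an odd number of spanning
trees.  For example `{p}` is good if and only if `N(p) ≡ 5 mod 8`, and `{p, q}` is good if and only if
exactly one of `N(p)`, `N(q)` is congruent to `5` modulo `8` and `p` is not a square modulo `q`.

Theorem: for good `S` the function `L(ψ_S ^ a * conj ψ_S ^ b, s)` does not vanish at the centre `s = k`,
for all `k ≥ 1` and all `a + b = 2 k - 1`.  In particular `L(H^(2k-1)(X / K), s)` is not zero at `s = k`
for every `k ≥ 1` and every `X = E_S ^ N × E_S' ^ M` with good `S`, `S'`: the Beilinson–Bloch conjecture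
predicts that all the groups `CH^k(X)_hom` are torsion.

For `S = ∅` the statement is false: the root number of `ψ ^ a * conj ψ ^ b` is `-1` if
`a - b` is congruent to `5` or `7` modulo `8`, `a > b`, and `L` vanishes at `s = k`.

The proof gives the exact `2`-adic valuation of the algebraic part of the central values.
-/

set_option autoImplicit false

open Complex IsDedekindDomain

namespace Pool.Agent.Results.MP_b8021b_nt.OddTwistsEveryDegree

/-- The norm `N(J)` of an ideal (`0` for the zero ideal, whose residue ring is infinite). -/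
noncomputable def norm {R : Subring ℂ} (J : Ideal R) : ℝ := (Nat.card (R ⧸ J) : ℝ)

open Classical in
/-- The quadratic residue symbol `(α / p)` for a prime `p` of `R`: it is `0` if `p` divides `α`, `1` if
`α` is a nonzero square modulo `p`, and `-1` if `α` is not a square modulo `p`. -/
noncomputable def symbol {R : Subring ℂ} (p α : R) : ℤ :=
  if α ∈ Ideal.span {p} then 0 else if ∃ β : R, β * β - α ∈ Ideal.span {p} then 1 else -1

/-- `ψ`, a function on the ideals of `R`, is the Hecke character of
`E_S : (∏ p ∈ S, p) y² = x³ - x`; here `f = 2 + 2 i`. -/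
def IsHeckeCharacter {R : Subring ℂ} (f : R) (S : Finset R) (ψ : Ideal R → ℂ) : Prop :=
  (∀ I J : Ideal R, ψ (I * J) = ψ I * ψ J) ∧
  (∀ α : R, α - 1 ∈ Ideal.span {f} → ψ (Ideal.span {α}) = (∏ p ∈ S, symbol p α : ℤ) * α) ∧
  ∀ J : Ideal R, (¬ ∃ α : R, α - 1 ∈ Ideal.span {f} ∧ J = Ideal.span {α}) → ψ J = 0

open Classical in
/-- The finite set `S` of primes congruent to `1` modulo `f = 2 + 2 i` is good: the norm of
`D = ∏ p ∈ S, p` is congruent to `5` modulo `8`, and there is no subset `V` of `S`, different from `∅`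
and `S`, with `∏ q ∈ S \ V, (p / q) = 1` for all `p ∈ V` and `∏ q ∈ V, (p / q) = 1` for all
`p ∈ S \ V`.  (The matrix described above has only the vectors `0` and `(1, ..., 1)` in its kernel;
`V` is the support of the vector.) -/
def IsGood {R : Subring ℂ} (f : R) (S : Finset R) : Prop :=
  (∀ p ∈ S, Prime p ∧ p - 1 ∈ Ideal.span {f}) ∧
  Nat.card (R ⧸ Ideal.span {∏ p ∈ S, p}) % 8 = 5 ∧
  ∀ V ⊆ S, V.Nonempty → V ≠ S → (∃ p ∈ V, ∏ q ∈ S \ V, symbol q p = -1) ∨
    (∃ p ∈ S \ V, ∏ q ∈ V, symbol q p = -1)

/-- **Main theorem.** Let `R = ℤ[i]`, `f = 2 + 2 i` and let `S 1, ..., S n` be finite sets of primes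
that are good.  Then the Hecke characters `ψ j` of the elliptic curves `(∏ p ∈ S j, p) y² = x³ - x`
exist, and for all `k ≥ 1` and all `a j`, `b j` with `a j + b j = 2 k - 1` the `L`-function of the direct
sum of the `ψ j ^ a j * conj (ψ j) ^ b j` extends to an entire function that is not zero at the centre
`s = k`. -/
theorem result (R : Subring ℂ) (hR : ∀ z : ℂ, z ∈ R ↔ ∃ x y : ℤ, z = x + y * I)
    (f : R) (hf : (f : ℂ) = 2 + 2 * I) (n : ℕ) (S : Fin n → Finset R) (hS : ∀ j, IsGood f (S j)) :
    ∃ ψ : Fin n → Ideal R → ℂ, (∀ j, IsHeckeCharacter f (S j) (ψ j)) ∧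
      ∀ (k : ℕ) (a b : Fin n → ℕ), 1 ≤ k → (∀ j, a j + b j = 2 * k - 1) →
        ∃ L : ℂ → ℂ, Differentiable ℂ L ∧
          (∀ s : ℂ, (k : ℝ) + 1 / 2 < s.re → HasProd (fun P : HeightOneSpectrum R =>
            ∏ j, (1 - ψ j P.asIdeal ^ a j * (starRingEnd ℂ) (ψ j P.asIdeal) ^ b j *
              (norm P.asIdeal : ℂ) ^ (-s))⁻¹) (L s)) ∧
          L k ≠ 0 := by
  classical
  have hbasic := Pool.Agent.W287.HK.h_basic
  have hcls := Pool.Agent.W571.HK.h_cls hbasic
  have hfp := Pool.Agent.W53.HK.h_fp hbasic hcls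
  have hfpr := Pool.Agent.W366.HK.h_fpr hbasic hcls
  have hlat := Pool.Agent.W585.HK.h_lat hbasic
  have hker := Pool.Agent.W692.HK.h_ker hbasic hcls hfpr
  have hcnt := Pool.Agent.W584.HK.h_cnt hbasic hcls hfpr hlat hker
  have hdec := Pool.Agent.W856.HK.h_dec hbasic
  have hgauss := Pool.Agent.W636.HK.h_gauss hbasic hfp
  have hpois := Pool.Agent.W348.HK.h_pois hbasic
  have htheta := Pool.Agent.TH936.HK.h_theta hbasic hfp hdec hgauss hpois hcnt
  have hafe := Pool.Agent.TH936.HK.h_afe hbasic hfp hcnt hgauss htheta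
  have hff : f = Pool.Agent.Y690.NV.ff hR :=
    Subtype.ext (by rw [hf, Pool.Agent.Y690.NV.ff_coe])
  subst hff
  have hpr : ∀ j, ∀ p ∈ S j, Prime p ∧ Pool.Agent.Y690.AW.Pri p := by
    intro j p hp
    obtain ⟨h1, h2⟩ := (hS j).1 p hp
    exact ⟨h1, (Pool.Agent.Y690.AW.pri_iff hR p).mp h2⟩
  have hadm : ∀ j, Pool.Agent.Helper26K9.XO.Adm0 (S j) := by
    intro j
    refine Pool.Agent.Helper26K9.XO.adm0_of hR hbasic (hpr j) ?_ (hS j).2.2
    rw [← Pool.Agent.Helper26K9.XO.card_prod hR hbasic]
    exact (hS j).2.1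
  refine ⟨fun j => Pool.Agent.Helper26K9.XO.tw0 hR 1 (S j), fun j => ⟨?_, fun α hα => ?_,
    fun J hJ => ?_⟩, fun k a b hk hab => ?_⟩
  · exact (Pool.Agent.Helper26K9.XO.tw0_main hR hbasic hfp hcnt hdec hafe (hadm j)
      (Pool.Agent.Y690.AW.dst_of hR (hadm j).1) 0).1.mul
  · have h := Pool.Agent.Helper26K9.XO.tw0_gen hR 1 (S j) hα
    rw [pow_one] at h
    exact h
  · exact Pool.Agent.Helper26K9.XO.tw0_zero hR (S j) 1 hJ
  · exact Pool.Agent.Helper26K9.XO.family0 hR hbasic hfp hcnt hdec hafe n hadm k hk a b hab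

end Pool.Agent.Results.MP_b8021b_nt.OddTwistsEveryDegree
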