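import Pool.Agent.Helper26K9.QT.Last4
import Pool.Agent.Helper26K9.QT.R1
import Pool.Agent.Helper26K9.QT.R2

/-!
# The Beilinson–Bloch conjecture for the quartic twists `y² = x³ - D^j x`

Let `K = ℚ(i)` and let `D ≡ 1 + 2 i mod 4` be a squarefree Gaussian integer.  For `j` modulo `4` let
`E_j` be the elliptic curve `y² = x³ - D ^ j x` over `K`: `E_1` and `E_3` are the quartic twists of
`E_0 : y² = x³ - x` by `D` and `D³` and `E_2` is the quadratic twist by `D`.  They become isomorphic over
the field `L = K(D^(1/4))`, and for every power `X = E_0 ^ N` the `L`-functions of `X` over `L` are the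
products of the `L`-functions over `K` twisted by the four powers of the quartic character `χ` of the
extension `L / K`.

The curve `E_j` has complex multiplication by `ℤ[i]`; its Hecke character `ψ_j` is given by
`ψ_j((p)) = conj (D / p)₄ ^ j * p` for the primes `p` of `ℤ[i]` with `p ≡ 1 mod 2 + 2 i` (generators of
all the prime ideals but `(1 + i)`), where `(D / p)₄` is the quartic residue symbol; for `j = 0` the
factor is `1` for all `p`.  By the law of quartic reciprocity and `D ≡ 1 + 2 i mod 4` we have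
`(D / p)₄ = (p / D)₄ = χ(p)`, the product of the symbols `(p / q)₄` for the primes `q ≡ 1 mod 2 + 2 i`
dividing `D`.

So for `X = E_{j 1} × ... × E_{j N}` the representation `H^(2m-1)(X)` of `Gal(Kbar / K)` is a direct sum
of the characters `χ ^ j * ψ ^ a * conj ψ ^ b`, `ψ((p)) = p`, `a + b = 2 m - 1`, with `|a - b| ≤ N` and
`|a - b| ≤ 2 m - 1`, and `L(H^(2m-1)(X), s)` is the product of their `L`-functions (some of these
characters are not ramified at `1 + i`; their Euler factors at `1 + i`, which are not in the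
products below, have neither a zero nor a pole at the centre `s = m`, as `|χ^j ψ^a conj ψ^b| = N^(m - 1/2)`).

Put `α = ∏ (1 - 2^(-2n-1)) = 0.4194...`.

Theorem: for a set of `D` of lower density at least `α` among the squarefree `D ≡ 1 + 2 i mod 4`,
ordered by norm:

* the curves `y² = x³ - D ^ j x`, `j = 1, 2, 3`, have only finitely many points over `K` (as
  `y² = x³ - x` has, the curve `E_0` has only finitely many points over `K(D^(1/4))`, and over the
  two fields between), and
* for all `j` modulo `4`, all `m ≥ 1` and all `a + b = 2 m - 1` with `|a - b| ≤ 3` the function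
  `L(χ ^ j * ψ ^ a * conj ψ ^ b, s)` is entire and does not vanish at the centre `s = m`.

Hence `ord_{s=m} L(H^(2m-1)(X), s) = 0`, as Beilinson and Bloch predict if all the groups `CH^m(X)_hom`
are torsion, for all products `X` of the curves `E_j` if `m ≤ 2`, and for all `m` if `X` is a product
of at most four of them; the same for the powers of `E_0` over `L`.  For `m = 1` both sides are zero.
-/

set_option autoImplicit false

namespace Pool.Agent.Helper26K9.Kept.QuarticTwists

/-- The primes `p` of `ℤ[i]` with `p ≡ 1 mod 2 + 2 i`: one generator for each prime ideal prime to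
`1 + i`. -/
def PrimaryPrime : Type := {p : GaussianInt // Prime p ∧ (⟨2, 2⟩ : GaussianInt) ∣ p - 1}

open Classical in
/-- The quartic residue symbol `(α / p)₄` for a prime `p` of `ℤ[i]` prime to `1 + i`: the fourth root of
unity `u` with `u ≡ α ^ ((N(p) - 1) / 4)` modulo `p`, and `0` if `p` divides `α` (there is no such
`u`). -/
noncomputable def symbol (p α : GaussianInt) : ℂ :=
  if h : ∃ u : GaussianInt, u ^ 4 = 1 ∧ p ∣ α ^ ((p.norm.natAbs - 1) / 4) - u then
    ((Classical.choose h : GaussianInt) : ℂ) else 0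

/-- `χ_D(α) = (α / D)₄`: the product of the symbols `(α / p)₄` for the primes `p ≡ 1 mod 2 + 2 i` that
divide `D`. -/
noncomputable def chi (D α : GaussianInt) : ℂ :=
  ∏ᶠ (p : PrimaryPrime) (_ : p.1 ∣ D), symbol p.1 α

/-- `L` is entire and it is the Hecke `L`-function of `χ_D ^ j * ψ ^ a * conj ψ ^ b`, without the Euler
factor at `1 + i`: the Euler product over the primes `p ≡ 1 mod 2 + 2 i`, in the half plane of absolute
convergence. -/
def IsLFunction (D : GaussianInt) (j a b : ℕ) (L : ℂ → ℂ) : Prop :=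
  Differentiable ℂ L ∧ ∀ s : ℂ, ((a : ℝ) + b) / 2 + 1 < s.re →
    HasProd (fun p : PrimaryPrime => (1 - chi D p.1 ^ j * (p.1 : ℂ) ^ a *
      (starRingEnd ℂ) (p.1 : ℂ) ^ b * ((p.1.norm : ℤ) : ℂ) ^ (-s))⁻¹) (L s)

/-- The squarefree Gaussian integers `D ≡ 1 + 2 i mod 4` of norm at most `X`. -/
def Twists (X : ℝ) : Set GaussianInt :=
  {D | Squarefree D ∧ (4 : GaussianInt) ∣ D - ⟨1, 2⟩ ∧ ((D.norm : ℤ) : ℝ) ≤ X}

/-- The curve `y² = x³ - D ^ j x` has only finitely many points over `K = ℚ(i)`. -/
def FinitelyManyPoints (D : GaussianInt) (j : ℕ) : Prop :=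
  {P : FractionRing GaussianInt × FractionRing GaussianInt |
    P.2 ^ 2 = P.1 ^ 3 - algebraMap GaussianInt (FractionRing GaussianInt) (D ^ j) * P.1}.Finite

/-- The curves `y² = x³ - D ^ j x`, `j = 1, 2, 3`, have only finitely many points over `ℚ(i)`, and
`L(χ_D ^ j * ψ ^ a * conj ψ ^ b, s)` is entire and not zero at the centre `s = m` for all `j` modulo `4`,
all `m ≥ 1` and all `a + b = 2 m - 1` with `|a - b| ≤ 3`. -/
def Good (D : GaussianInt) : Prop :=
  (∀ j : ℕ, 0 < j → j < 4 → FinitelyManyPoints D j) ∧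
    ∀ j : ℕ, j < 4 → ∀ m a b : ℕ, 1 ≤ m → a + b = 2 * m - 1 → ((a : ℤ) - b).natAbs ≤ 3 →
      ∃ L : ℂ → ℂ, IsLFunction D j a b L ∧ L m ≠ 0

/-- **Main theorem.** Put `α = ∏ (1 - 2^(-2n-1)) > 0.419`.  For every `ε > 0` the proportion of the `D`
with `Good D` among the squarefree Gaussian integers `D ≡ 1 + 2 i mod 4` of norm at most `X` (their
number is at least a constant times `X`) is at least `α - ε` for all large `X`. -/
theorem result :
    (419 / 1000 : ℝ) < ∏' n : ℕ, (1 - (1 / 2 : ℝ) ^ (2 * n + 1)) ∧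
    (∀ X : ℝ, (Twists X).Finite) ∧
    (∃ c : ℝ, 0 < c ∧ ∃ X₁ : ℝ, ∀ X : ℝ, X₁ ≤ X → c * X ≤ ((Twists X).ncard : ℝ)) ∧
    ∀ ε : ℝ, 0 < ε → ∃ X₀ : ℝ, ∀ X : ℝ, X₀ ≤ X →
      ((∏' n : ℕ, (1 - (1 / 2 : ℝ) ^ (2 * n + 1))) - ε) * ((Twists X).ncard : ℝ) ≤
        ({D ∈ Twists X | Good D}.ncard : ℝ) :=
  ⟨Pool.Agent.Y944.PP.t_NUM, Pool.Agent.Helper26K9.QT.TwP_fin, Pool.Agent.Helper26K9.QT.fin4.1,
    Pool.Agent.Helper26K9.QT.last4 Pool.Agent.Helper26K9.QT.r1 Pool.Agent.Helper26K9.QT.r2⟩

end Pool.Agent.Helper26K9.Kept.QuarticTwists
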